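import Mathlib

set_option maxHeartbeats 400000

namespace Pool.Agent.Results.MP_773328_co.Yes
open Finset Nat PowerSeries

/-- F(z) = Σ_k (-1)^k z^{2k+1} / (k! (k+1)! (2k+1)). -/
noncomputable def F : ℚ⟦X⟧ := PowerSeries.mk fun n =>
  if n % 2 = 1 then (-1) ^ (n / 2) / (((n / 2)! : ℚ) * ((n / 2 + 1)! : ℚ) * n) else 0

/-- a_n = n! [z^n] (-log(1 - F(z))). -/
noncomputable def a (n : ℕ) : ℚ := n ! * coeff n (-logOf (1 - F))

noncomputable def V (n : ℕ) : ℕ := padicValNat 2 n !

lemma V2 (n : ℕ) : V (2 * n) = V n + n := padicValNat_factorial_mul n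

lemma V21 (n : ℕ) : V (2 * n + 1) = V n + n := by
  rw [← V2, V, V, factorial_succ, padicValNat.mul (by omega) (factorial_ne_zero _),
    padicValNat.eq_zero_of_not_dvd (by omega), zero_add]

lemma Vch (x y : ℕ) : padicValNat 2 ((x + y).choose x) + V x + V y = V (x + y) := by
  have h := choose_mul_factorial_mul_factorial (Nat.le_add_right x y)
  rw [Nat.add_sub_cancel_left] at h
  have h0 : (x + y).choose x ≠ 0 := (choose_pos (Nat.le_add_right x y)).ne'
  rw [V, V, V, ← h, padicValNat.mul (mul_ne_zero h0 (factorial_ne_zero _)) (factorial_ne_zero _),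
    padicValNat.mul h0 (factorial_ne_zero _)]

lemma Vlt (n : ℕ) (hn : 1 ≤ n) : V n + 1 ≤ n ∧ (V n + 1 = n ↔ ∃ j, n = 2 ^ j) := by
  induction n using Nat.strong_induction_on with
  | _ n ih =>
    rcases Nat.even_or_odd' n with ⟨m, rfl | rfl⟩
    · obtain ⟨h1, h2⟩ := ih m (by omega) (by omega)
      rw [V2]
      refine ⟨by omega, fun h => ?_, fun ⟨j, hj⟩ => ?_⟩
      · obtain ⟨j, hj⟩ := h2.1 (by omega)
        exact ⟨j + 1, by rw [hj]; ring⟩
      · cases j with
        | zero => omega
        | succ j => have := h2.2 ⟨j, by rw [pow_succ] at hj; omega⟩; omega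
    · rw [V21]
      by_cases hm : m = 0
      · subst hm
        exact ⟨by simp [V], fun _ => ⟨0, rfl⟩, fun _ => by simp [V]⟩
      · obtain ⟨h1, h2⟩ := ih m (by omega) (by omega)
        refine ⟨by omega, fun h => by omega, fun ⟨j, hj⟩ => ?_⟩
        cases j with
        | zero => omega
        | succ j => rw [pow_succ] at hj; omega

def f (n : ℕ) : ℤ := if n % 2 = 1 then (-1) ^ (n / 2) * catalan (n / 2) else 0

lemma cat (k : ℕ) : catalan k * (k ! * (k + 1)!) = (2 * k)! := by
  have h1 := succ_mul_catalan_eq_centralBinom k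
  have h2 := choose_mul_factorial_mul_factorial (show k ≤ 2 * k by omega)
  rw [show 2 * k - k = k by omega, ← centralBinom_eq_two_mul_choose, ← h1] at h2
  rw [← h2, factorial_succ]; ring

lemma hf (n : ℕ) : (n ! : ℚ) * coeff n F = f n := by
  rw [F, coeff_mk, f]
  split_ifs with h
  · obtain ⟨k, rfl⟩ : ∃ k, n = 2 * k + 1 := ⟨n / 2, by omega⟩
    rw [show (2 * k + 1) / 2 = k by omega, factorial_succ (2 * k), ← cat k]
    have h1 : (k ! : ℚ) ≠ 0 := by positivity
    have h2 : ((k + 1)! : ℚ) ≠ 0 := by positivity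
    push_cast
    field_simp
  · simp

lemma F0 : constantCoeff F = 0 := by rw [← coeff_zero_eq_constantCoeff_apply, F, coeff_mk]; simp

lemma ode : d⁄dX ℚ (-logOf (1 - F)) = d⁄dX ℚ F + F * d⁄dX ℚ (-logOf (1 - F)) := by
  have hs : HasSubst (-F) := HasSubst.of_constantCoeff_zero' (by simp [F0])
  have h1 : d⁄dX ℚ (PowerSeries.log ℚ) * (1 + X) = 1 := by
    rw [deriv_log]
    ext n
    cases n with
    | zero => simp
    | succ n => simp [mul_add, coeff_succ_mul_X, coeff_one, pow_succ]
  have h2 := congrArg (substAlgHom (R := ℚ) hs) h1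
  rw [map_mul, map_add, map_one, substAlgHom_X, coe_substAlgHom] at h2
  rw [logOf_eq, show 1 - F - 1 = -F by ring, map_neg, derivative_subst hs, map_neg]
  linear_combination (d⁄dX ℚ F) * h2

lemma arec (n : ℕ) : a (n + 1) = f (n + 1)
    + ∑ j ∈ range n, (n.choose (j + 1) : ℚ) * f (j + 1) * a (n - j) := by
  have h := congrArg (coeff n) ode
  rw [map_add, coeff_mul, Nat.sum_antidiagonal_eq_sum_range_succ_mk, sum_range_succ',
    coeff_zero_eq_constantCoeff_apply, F0, zero_mul, add_zero, coeff_derivative,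
    coeff_derivative] at h
  have : ∑ j ∈ range n, (n.choose (j + 1) : ℚ) * f (j + 1) * a (n - j) = n ! * ∑ j ∈ range n,
      coeff (j + 1) F * coeff (n - (j + 1)) (d⁄dX ℚ (-logOf (1 - F))) := by
    rw [mul_sum]
    refine sum_congr rfl fun j hj => ?_
    have hj' := mem_range.1 hj
    obtain ⟨e, rfl⟩ : ∃ e, n = j + 1 + e := ⟨n - (j + 1), by omega⟩
    rw [← hf, a, coeff_derivative, Nat.cast_choose ℚ (Nat.le_add_right _ _),
      Nat.add_sub_cancel_left, show j + 1 + e - j = e + 1 by omega, factorial_succ e]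
    have h1 : ((j + 1)! : ℚ) ≠ 0 := by positivity
    have h2 : (e ! : ℚ) ≠ 0 := by positivity
    push_cast
    field_simp
  rw [this, ← hf, a, factorial_succ]
  push_cast
  linear_combination (n ! : ℚ) * h

lemma f_even (n : ℕ) (h : n % 2 = 0) : f n = 0 := by rw [f, if_neg (by omega)]

lemma lucas (n k : ℕ) :
    (n.choose k : ZMod 2) = ((n % 2).choose (k % 2) : ℕ) * ((n / 2).choose (k / 2) : ℕ) := by
  rw [← Nat.cast_mul]
  exact (ZMod.natCast_eq_natCast_iff _ _ 2).2 Choose.choose_modEq_choose_mod_mul_choose_div_nat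

lemma sumA (n : ℕ) : ∑ j ∈ range n, (n.choose (j + 1) : ZMod 2) * f (j + 1) * f (n - j)
    = if n + 1 = 2 then 1 else 0 := by
  split_ifs with h
  · obtain rfl : n = 1 := by omega
    simp [f]
  · refine sum_involution (fun j _ => n - 1 - j) ?_ ?_ ?_ ?_
    · intro j hj
      have hj' := mem_range.1 hj
      rw [show n - 1 - j + 1 = n - j by omega, show n - (n - 1 - j) = j + 1 by omega,
        choose_symm hj'.le]
      by_cases h1 : (j + 1) % 2 = 0
      · simp [f_even _ h1]
      by_cases h2 : (n - j) % 2 = 0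
      · simp [f_even _ h2]
      have h3 := lucas (n + 1) (j + 1)
      rw [show (n + 1) % 2 = 0 by omega, show (j + 1) % 2 = 1 by omega, choose_succ_succ'] at h3
      simp only [Nat.cast_add, choose_zero_succ, Nat.cast_zero, zero_mul] at h3
      linear_combination ((f (j + 1) : ZMod 2) * f (n - j)) * h3
    · intro j hj hne heq
      have hj' := mem_range.1 hj
      apply hne
      by_cases h1 : (j + 1) % 2 = 0
      · simp [f_even _ h1]
      obtain ⟨i, rfl⟩ : ∃ i, j = 2 * i := ⟨j / 2, by omega⟩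
      have h3 := lucas n (2 * i + 1)
      rw [show n / 2 = 2 * i by omega, show (2 * i + 1) / 2 = i by omega,
        ← centralBinom_eq_two_mul_choose,
        (ZMod.natCast_eq_zero_iff _ 2).2 (two_dvd_centralBinom_of_one_le (by omega)),
        mul_zero] at h3
      rw [h3]; simp
    · intro j hj
      have hj' := mem_range.1 hj
      simp only [mem_range]; omega
    · intro j hj
      have hj' := mem_range.1 hj
      show n - 1 - (n - 1 - j) = j
      omega

lemma main (n : ℕ) : a (n + 1) = (a (n + 1)).num ∧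
    ((a (n + 1)).num : ZMod 2) = f (n + 1) + if n + 1 = 2 then 1 else 0 := by
  induction n using Nat.strong_induction_on with
  | _ n ih =>
    have ih' : ∀ j ∈ range n, a (n - j) = (a (n - j)).num ∧
        ((a (n - j)).num : ZMod 2) = f (n - j) + if n - j = 2 then 1 else 0 := by
      intro j hj
      have hj' := mem_range.1 hj
      have := ih (n - j - 1) (by omega)
      rwa [show n - j - 1 + 1 = n - j by omega] at this
    have h1 : a (n + 1) = ((f (n + 1) + ∑ j ∈ range n,
        (n.choose (j + 1) : ℤ) * f (j + 1) * (a (n - j)).num : ℤ) : ℚ) := by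
      rw [arec]; push_cast
      congr 1
      exact sum_congr rfl fun j hj => by rw [← (ih' j hj).1]
    rw [h1, Rat.num_intCast]
    refine ⟨rfl, ?_⟩
    rw [← sumA]
    push_cast
    congr 1
    refine sum_congr rfl fun j hj => ?_
    have hj' := mem_range.1 hj
    rw [(ih' j hj).2]
    split_ifs with h
    · by_cases h1 : (j + 1) % 2 = 0
      · simp [f_even _ h1]
      · have h3 := lucas n (j + 1)
        rw [show n % 2 = 0 by omega, show (j + 1) % 2 = 1 by omega] at h3
        simp only [choose_zero_succ, Nat.cast_zero, zero_mul] at h3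
        rw [h3]; simp
    · rw [add_zero]

lemma cat_odd (k : ℕ) : Odd (catalan k) ↔ ∃ j, k + 1 = 2 ^ j := by
  have h := congrArg (padicValNat 2) (cat k)
  have h0 : catalan k ≠ 0 := by
    intro h0
    have := cat k
    rw [h0, zero_mul] at this
    exact factorial_ne_zero _ this.symm
  rw [padicValNat.mul h0 (mul_ne_zero (factorial_ne_zero _) (factorial_ne_zero _)),
    padicValNat.mul (factorial_ne_zero _) (factorial_ne_zero _)] at h
  have h2 : padicValNat 2 (catalan k) + (V k + V (k + 1)) = V (2 * k) := h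
  rw [V2] at h2
  obtain ⟨l1, l2⟩ := Vlt (k + 1) (by omega)
  have d1 : 1 ≤ padicValNat 2 (catalan k) ↔ 2 ∣ catalan k := by
    rw [← padicValNat_dvd_iff_le h0, pow_one]
  rw [← l2, Nat.odd_iff]
  omega

theorem result (n : ℕ) (hn : 3 ≤ n) : ∃ z : ℤ, a n = z ∧ (Odd z ↔ ∃ j, n + 1 = 2 ^ j) := by
  obtain ⟨m, rfl⟩ : ∃ m, n = m + 1 := ⟨n - 1, by omega⟩
  obtain ⟨h1, h2⟩ := main m
  refine ⟨_, h1, ?_⟩
  rw [if_neg (by omega), add_zero] at h2
  have h3 : (a (m + 1)).num % 2 = f (m + 1) % 2 := (ZMod.intCast_eq_intCast_iff' _ _ 2).1 h2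
  rw [Int.odd_iff, h3, ← Int.odd_iff, f]
  split_ifs with h
  · obtain ⟨k, hk⟩ : ∃ k, m + 1 = 2 * k + 1 := ⟨(m + 1) / 2, by omega⟩
    rw [hk, show (2 * k + 1) / 2 = k by omega, Int.odd_mul, Int.odd_coe_nat, cat_odd]
    have : Odd ((-1 : ℤ) ^ k) := Odd.pow (by decide)
    simp only [this, true_and]
    constructor
    · rintro ⟨j, hj⟩; exact ⟨j + 1, by rw [pow_succ]; omega⟩
    · rintro ⟨j, hj⟩
      cases j with
      | zero => omega
      | succ j => exact ⟨j, by rw [pow_succ] at hj; omega⟩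
  · simp only [Int.not_odd_zero, false_iff]
    rintro ⟨j, hj⟩
    cases j with
    | zero => omega
    | succ j => rw [pow_succ] at hj; omega

end Pool.Agent.Results.MP_773328_co.Yes
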